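import Pool.Agent.H18.HIT.Targets

/-!
# The number of preimages is at most the degree of a primitive element
-/

open MvPolynomial
open Pool.Agent.H12.ZD (pmap v O Res DenseOrbit NoInv)
open Pool.Agent.H18.HIT

namespace Pool.Agent.H94.HIT

theorem pf_CVP : T_CVP := by
  intro N k _ _ G e θ Φ Δ R _ hC hP
  classical
  obtain ⟨c, hc0, hc⟩ := hC
  have hne : c * Δ ≠ 0 := mul_ne_zero hc0 hP.ne
  obtain ⟨y, hy⟩ : ∃ y, eval y (c * Δ) ≠ 0 := by
    by_contra h
    push Not at h
    exact hne (MvPolynomial.funext fun x => by rw [h x, map_zero])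
  rw [map_mul] at hy
  obtain ⟨hcy, hΔy⟩ := mul_ne_zero_iff.mp hy
  obtain ⟨S, hS, hSx⟩ := hc y hcy
  have hP1 : Φ.map (eval y) ≠ 0 := (hP.monic.map _).ne_zero
  have h1 : S.card ≤ (Φ.map (eval y)).roots.toFinset.card := by
    apply Finset.card_le_card_of_injOn (fun x => eval x θ)
    · intro x hx
      have hx' : pmap G x = y := hSx x hx
      have h2 := eval_ev2 G θ Φ x
      rw [hP.root, map_zero, hx'] at h2
      simp only [Finset.mem_coe, Multiset.mem_toFinset]
      exact (Polynomial.mem_roots hP1).mpr h2.symm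
    · intro x hx x' hx' hxx
      have e1 : pmap G x = y := hSx x hx
      have e2 : pmap G x' = y := hSx x' hx'
      funext i
      have h3 := congrArg (eval x) (hP.coord i)
      have h4 := congrArg (eval x') (hP.coord i)
      rw [map_mul, eval_aeval, eval_X, eval_ev2, e1] at h3
      rw [map_mul, eval_aeval, eval_X, eval_ev2, e2] at h4
      have h5 : eval x θ = eval x' θ := hxx
      rw [h5, ← h4] at h3
      exact mul_left_cancel₀ hΔy h3
  calc e = S.card := hS.symm
    _ ≤ (Φ.map (eval y)).roots.toFinset.card := h1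
    _ ≤ Multiset.card (Φ.map (eval y)).roots := Multiset.toFinset_card_le _
    _ ≤ (Φ.map (eval y)).natDegree := Polynomial.card_roots' _
    _ = Φ.natDegree := hP.monic.natDegree_map _

end Pool.Agent.H94.HIT
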