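import Pool.Agent.H18.HIT.Targets

/-!
# Krull's intersection theorem at a point
-/

open MvPolynomial
open Pool.Agent.H12.ZD (pmap v O Res DenseOrbit NoInv)
open Pool.Agent.H18.HIT

namespace Pool.Agent.H94.HIT

theorem pf_KRU : T_KRU := by
  intro N k _ I z c hc
  have hx : (Ideal.Quotient.mk I c) ∈ (⨅ i : ℕ, ((mx z).map (Ideal.Quotient.mk I)) ^ i •
      ⊤ : Submodule (Po N k ⧸ I) (Po N k ⧸ I)) := by
    rw [Submodule.mem_iInf]
    intro i
    have h1 : Ideal.Quotient.mk I c ∈ (I ⊔ mx z ^ i).map (Ideal.Quotient.mk I) :=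
      Ideal.mem_map_of_mem _ (hc i)
    rw [Ideal.map_sup, Ideal.map_quotient_self, bot_sup_eq, Ideal.map_pow] at h1
    rw [smul_eq_mul, Ideal.mul_top]
    exact h1
  obtain ⟨⟨r, hrJ⟩, hr⟩ := (Ideal.mem_iInf_smul_pow_eq_bot_iff _ _).mp hx
  obtain ⟨m, hm, rfl⟩ :=
    (Ideal.mem_map_iff_of_surjective _ Ideal.Quotient.mk_surjective).mp hrJ
  refine ⟨m, hm, ?_⟩
  rw [← Ideal.Quotient.eq_zero_iff_mem, map_mul, map_sub, map_one, sub_mul, one_mul]
  change (Ideal.Quotient.mk I m) * (Ideal.Quotient.mk I c) = _ at hr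
  rw [hr, sub_self]

end Pool.Agent.H94.HIT
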