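import Pool.Agent.H18.HIT.Targets

/-!
# The Vandermonde argument
-/

open MvPolynomial
open Pool.Agent.H12.ZD (pmap v O Res DenseOrbit NoInv)
open Pool.Agent.H18.HIT

namespace Pool.Agent.H94.HIT

/-- a polynomial which does not vanish at `z` is invertible modulo a power of the maximal ideal -/
theorem inv_mod_mx {N : ℕ} {k : Type} [Field k] (z : Fin N → k) (d : Po N k)
    (hd : eval z d ≠ 0) (l : ℕ) : ∃ d' : Po N k, 1 - d' * d ∈ mx z ^ l := by
  have hm : (1 - C (eval z d)⁻¹ * d) ∈ mx z := by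
    rw [mem_mx, map_sub, map_one, map_mul, eval_C, inv_mul_cancel₀ hd, sub_self]
  set m : Po N k := 1 - C (eval z d)⁻¹ * d with hmdef
  refine ⟨(∑ i ∈ Finset.range l, m ^ i) * C (eval z d)⁻¹, ?_⟩
  have h1 : C (eval z d)⁻¹ * d = 1 - m := by rw [hmdef]; ring
  have h2 : (∑ i ∈ Finset.range l, m ^ i) * C (eval z d)⁻¹ * d = 1 - m ^ l := by
    rw [mul_assoc, h1]
    have := geom_sum_mul m l
    calc (∑ i ∈ Finset.range l, m ^ i) * (1 - m) = -((∑ i ∈ Finset.range l, m ^ i) * (m - 1)) := by
          ring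
      _ = 1 - m ^ l := by rw [this]; ring
  rw [h2, sub_sub_cancel]
  exact Ideal.pow_mem_pow hm l

theorem pf_VDM : T_VDM := by
  intro N k _ G z E P θ hP hθ hsur hinj c hc i l
  rcases Nat.eq_zero_or_pos l with hl | hl
  · subst hl
    rw [pow_zero, Ideal.one_eq_top, sup_top_eq]
    exact Submodule.mem_top
  choose τ hτ using fun a => hsur a l θ
  have hev : ∀ a, eval z (τ a) = eval (P a) θ := by
    intro a
    have h1 := eval_of_mem_mx (Ideal.pow_le_self (by omega) (hτ a))
    rw [map_sub, eval_aeval, hP a, sub_eq_zero] at h1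
    exact h1.symm
  have hs : ∀ a, (∑ j : Fin E, τ a ^ (j : ℕ) * c j) ∈ van G z ⊔ mx z ^ l := by
    intro a
    apply hinj a l
    have h1 : (∑ j : Fin E, θ ^ (j : ℕ) * aeval G (c j)) -
        aeval G (∑ j : Fin E, τ a ^ (j : ℕ) * c j) ∈ mx (P a) ^ l := by
      rw [map_sum, ← Finset.sum_sub_distrib]
      apply Ideal.sum_mem
      intro j _
      rw [map_mul, map_pow, ← sub_mul]
      apply Ideal.mul_mem_right
      exact Ideal.mem_of_dvd _ (sub_dvd_pow_sub_pow θ (aeval G (τ a)) (j : ℕ)) (hτ a)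
    have h2 : aeval G (∑ j : Fin E, τ a ^ (j : ℕ) * c j) =
        (∑ j : Fin E, θ ^ (j : ℕ) * aeval G (c j)) -
        ((∑ j : Fin E, θ ^ (j : ℕ) * aeval G (c j)) -
          aeval G (∑ j : Fin E, τ a ^ (j : ℕ) * c j)) := by ring
    rw [h2]
    exact Ideal.sub_mem _ (Submodule.mem_sup_left hc) (Submodule.mem_sup_right h1)
  set Q : Ideal (Po N k) := van G z ⊔ mx z ^ l with hQ
  have hV : ∀ j, (Matrix.vandermonde τ).det * c j ∈ Q := by
    intro j
    have h1 : (Matrix.vandermonde τ).adjugate.mulVec ((Matrix.vandermonde τ).mulVec c) j =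
        (Matrix.vandermonde τ).det * c j := by
      rw [Matrix.mulVec_mulVec, Matrix.adjugate_mul, Matrix.smul_mulVec, Matrix.one_mulVec]
      rfl
    rw [← h1]
    unfold Matrix.mulVec dotProduct
    apply Ideal.sum_mem
    intro a _
    apply Ideal.mul_mem_left
    exact hs a
  have hne : eval z (Matrix.vandermonde τ).det ≠ 0 := by
    rw [RingHom.map_det]
    have h1 : (eval z).mapMatrix (Matrix.vandermonde τ) =
        Matrix.vandermonde fun a => eval (P a) θ := by
      ext a b
      simp only [RingHom.mapMatrix_apply, Matrix.map_apply, Matrix.vandermonde_apply, map_pow, hev]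
    rw [h1, Matrix.det_vandermonde_ne_zero_iff]
    intro a b hab
    exact hθ a b hab
  obtain ⟨d', hd'⟩ := inv_mod_mx z _ hne l
  have h3 : c i = d' * ((Matrix.vandermonde τ).det * c i) +
      (1 - d' * (Matrix.vandermonde τ).det) * c i := by ring
  rw [h3]
  exact Ideal.add_mem _ (Ideal.mul_mem_left _ _ (hV i))
    (Ideal.mul_mem_right _ _ (Submodule.mem_sup_right hd'))

end Pool.Agent.H94.HIT
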