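import Pool.Agent.H18.HIT.Targets

/-!
# The polynomial identities for the fibres give preimages
-/

open MvPolynomial
open Pool.Agent.H12.ZD (pmap v O Res DenseOrbit NoInv)
open Pool.Agent.H18.HIT

namespace Pool.Agent.H94.HIT

/-- the homogenization is compatible with algebra homomorphisms -/
theorem map_hev {N : ℕ} {k : Type} [CommRing k] {B B' : Type} [CommRing B] [Algebra k B]
    [CommRing B'] [Algebra k B'] (ψ : B →+* B') (hψ : ∀ a : k, ψ (algebraMap k B a) =
      algebraMap k B' a) (R : Fin N → B) (δ : B) (D : ℕ) (q : Po N k) :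
    ψ (hev R δ D q) = hev (fun i => ψ (R i)) (ψ δ) D q := by
  unfold hev
  rw [map_sum]
  apply Finset.sum_congr rfl
  intro m _
  rw [map_mul, map_mul, map_pow, map_prod, hψ]
  congr 1
  apply Finset.prod_congr rfl
  intro i _
  rw [map_pow]

/-- the value of the homogenization -/
theorem hev_eq {N : ℕ} {k : Type} [CommRing k] (x : Fin N → k) (δ : k) (D : ℕ) (q : Po N k)
    (hq : q.totalDegree ≤ D) : hev (fun i => δ * x i) δ D q = δ ^ D * eval x q := by
  classical
  unfold hev
  rw [eval_eq', Finset.mul_sum]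
  apply Finset.sum_congr rfl
  intro m hm
  have h1 : (m.sum fun _ e => e) ≤ D := (le_totalDegree hm).trans hq
  have h2 : (∏ i, (δ * x i) ^ m i) = δ ^ (m.sum fun _ e => e) * ∏ i, x i ^ m i := by
    rw [Finset.prod_congr rfl (fun i _ => mul_pow δ (x i) (m i)), Finset.prod_mul_distrib,
      Finset.prod_pow_eq_pow_sum]
    congr 2
    rw [Finsupp.sum_fintype _ _ (fun _ => rfl)]
  rw [h2]
  have h3 : δ ^ (D - m.sum fun _ e => e) * δ ^ (m.sum fun _ e => e) = δ ^ D := by
    rw [← pow_add, Nat.sub_add_cancel h1]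
  calc (algebraMap k k) (coeff m q) * δ ^ (D - m.sum fun _ e => e) *
        (δ ^ (m.sum fun _ e => e) * ∏ i, x i ^ m i)
      = (algebraMap k k) (coeff m q) * (δ ^ (D - m.sum fun _ e => e) *
        δ ^ (m.sum fun _ e => e)) * ∏ i, x i ^ m i := by ring
    _ = δ ^ D * (coeff m q * ∏ i, x i ^ m i) := by
        rw [h3, Algebra.algebraMap_self, RingHom.id_apply]; ring

theorem pf_CVC : T_CVC := by
  intro N k _ _ G e D Φ θ ρ Δ R h hρ hΔ
  classical
  refine ⟨ρ * Δ, mul_ne_zero hρ hΔ, ?_⟩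
  intro y hy
  rw [map_mul] at hy
  obtain ⟨hρy, hΔy⟩ := mul_ne_zero_iff.mp hy
  set P : Polynomial k := Φ.map (eval y) with hPdef
  have hmon : P.Monic := h.monic.map _
  have hdeg : P.natDegree = e := by rw [hPdef, h.monic.natDegree_map, h.nat]
  have hsep : P.Separable := by
    obtain ⟨U, V, hUV⟩ := h.sep
    have h1 := congrArg (Polynomial.map (eval y)) hUV
    rw [Polynomial.map_add, Polynomial.map_mul, Polynomial.map_mul, Polynomial.map_C,
      ← Polynomial.derivative_map] at h1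
    refine ⟨Polynomial.C (eval y ρ)⁻¹ * U.map (eval y), Polynomial.C (eval y ρ)⁻¹ *
      V.map (eval y), ?_⟩
    rw [mul_assoc, mul_assoc, ← mul_add, h1, ← Polynomial.C_mul, inv_mul_cancel₀ hρy,
      Polynomial.C_1]
  have hcard : P.roots.toFinset.card = e := by
    rw [Multiset.toFinset_card_of_nodup (Polynomial.nodup_roots hsep)]
    have h1 := (IsAlgClosed.splits P).natDegree_eq_card_roots
    rw [← h1, hdeg]
  -- the ring homomorphism
  set ψ : k → (Polynomial (Po N k) →+* k) := fun τ =>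
    (Polynomial.evalRingHom τ).comp (Polynomial.mapRingHom (eval y)) with hψ
  have hψC : ∀ τ (c : Po N k), ψ τ (Polynomial.C c) = eval y c := by
    intro τ c
    simp [hψ]
  have hψX : ∀ τ, ψ τ Polynomial.X = τ := by
    intro τ
    simp [hψ]
  have hψk : ∀ τ (a : k), ψ τ (algebraMap k (Polynomial (Po N k)) a) = algebraMap k k a := by
    intro τ a
    have : algebraMap k (Polynomial (Po N k)) a = Polynomial.C (C a) := rfl
    rw [this, hψC, eval_C]
    rfl
  set x : k → Fin N → k := fun τ i => (eval y Δ)⁻¹ * ψ τ (R i) with hx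
  have hR : ∀ τ i, ψ τ (R i) = eval y Δ * x τ i := by
    intro τ i
    rw [hx]
    simp only
    rw [← mul_assoc, mul_inv_cancel₀ hΔy, one_mul]
  have hval : ∀ τ (q : Po N k), q.totalDegree ≤ D →
      ψ τ (hev R (Polynomial.C Δ) D q) = eval y Δ ^ D * eval (x τ) q := by
    intro τ q hq
    rw [map_hev (ψ τ) (hψk τ), hψC]
    rw [show (fun i => ψ τ (R i)) = fun i => eval y Δ * x τ i from funext (hR τ)]
    exact hev_eq _ _ _ _ hq
  have hroot : ∀ τ ∈ P.roots.toFinset, ψ τ Φ = 0 := by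
    intro τ hτ
    rw [Multiset.mem_toFinset, Polynomial.mem_roots hmon.ne_zero] at hτ
    exact hτ
  have hDpos : eval y Δ ^ D ≠ 0 := pow_ne_zero _ hΔy
  have hpm : ∀ τ ∈ P.roots.toFinset, pmap G (x τ) = y := by
    intro τ hτ
    funext i
    obtain ⟨A, hA⟩ := h.inv i
    have h1 := congrArg (ψ τ) hA
    rw [map_mul (ψ τ) Φ A, hroot τ hτ, zero_mul, map_sub, hval τ (G i)
      ((totalDegree_le_deg G i).trans h.degG), hψC, map_mul, map_pow, eval_X, sub_eq_zero] at h1
    exact mul_left_cancel₀ hDpos h1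
  have hth : ∀ τ ∈ P.roots.toFinset, eval (x τ) θ = τ := by
    intro τ hτ
    obtain ⟨A, hA⟩ := h.prim
    have h1 := congrArg (ψ τ) hA
    rw [map_mul (ψ τ) Φ A, hroot τ hτ, zero_mul, map_sub, hval τ θ h.degθ, map_mul, hψC,
      map_pow, hψX, sub_eq_zero] at h1
    exact mul_left_cancel₀ hDpos h1
  refine ⟨P.roots.toFinset.image x, ?_, ?_⟩
  · rw [Finset.card_image_of_injOn, hcard]
    intro τ hτ τ' hτ' hh
    rw [← hth τ hτ, ← hth τ' hτ', hh]
  · intro z hz
    obtain ⟨τ, hτ, rfl⟩ := Finset.mem_image.mp hz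
    exact hpm τ hτ

end Pool.Agent.H94.HIT
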